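import Pool.Agent.W14.US.Stm

/-! US-STEP: the main step. -/

set_option autoImplicit false
open Complex MeasureTheory
open scoped ContDiff

namespace Pool.Agent.W95.US
open Pool.Agent.W14.US

lemma fd0 {k : ℂ → ℂ} {R : ℝ} (hk : ∀ w, R < ‖w‖ → k w = 0) (w : ℂ) (hw : R < ‖w‖) :
    fderiv ℝ k w = 0 := by
  have h : k =ᶠ[nhds w] fun _ => (0:ℂ) := by
    have h1 : ∀ᶠ u in nhds w, R < ‖u‖ := (continuous_norm.tendsto w).eventually_const_lt hw
    exact h1.mono hk
  rw [h.fderiv_eq]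
  simp

lemma db0 {k : ℂ → ℂ} {R : ℝ} (hk : ∀ w, R < ‖w‖ → k w = 0) (w : ℂ) (hw : R < ‖w‖) :
    db k w = 0 := by
  unfold db
  rw [fd0 hk w hw]
  simp

lemma dd0 {k : ℂ → ℂ} {R : ℝ} (hk : ∀ w, R < ‖w‖ → k w = 0) (w : ℂ) (hw : R < ‖w‖) :
    dd k w = 0 := by
  unfold dd
  rw [fd0 hk w hw]
  simp

lemma dd_lin {f g : ℂ → ℂ} (hf : Differentiable ℝ f) (hg : Differentiable ℝ g) (a b z : ℂ) :
    dd (fun w => a * f w + b * g w) z = a * dd f z + b * dd g z := by
  have h : fderiv ℝ (fun w => a * f w + b * g w) z = a • fderiv ℝ f z + b • fderiv ℝ g z :=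
    (((hf z).hasFDerivAt.const_mul a).add ((hg z).hasFDerivAt.const_mul b)).fderiv
  unfold dd
  rw [h]
  simp
  ring

lemma Ad.diff {g : ℂ → ℂ} (hg : Ad g) : Differentiable ℝ g :=
  hg.1.differentiable (by simp)

lemma Ad.bdd {g : ℂ → ℂ} (hg : Ad g) : ∃ C, ∀ x, ‖g x‖ ≤ C :=
  hg.2.exists_bound_of_continuous hg.1.continuous

lemma th_norm (b : Bool) : ‖(if b then I / 2 else 1 / 2 : ℂ)‖ = 1 / 2 := by
  cases b <;> simp

lemma th'_norm (b : Bool) : ‖(if b then -I / 2 else 1 / 2 : ℂ)‖ = 1 / 2 := by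
  cases b <;> simp

theorem step : S_DER → S_LIN → S_BD → S_STRIP → S_CUT → S_CALC → S_STEP := by
  intro hDER hLIN hBD hSTRIP hCUT hCALC k B ε c b hk hε hB
  obtain ⟨R, hR1, hR⟩ := hk.2.isCompact.isBounded.subset_closedBall_lt 1 (0:ℂ)
  have hR0 : 0 ≤ R := by linarith
  have hk0 : ∀ w, R < ‖w‖ → k w = 0 := by
    intro w hw
    by_contra hne
    have h1 : w ∈ tsupport k := subset_tsupport k hne
    have h2 := hR h1
    simp only [Metric.mem_closedBall, dist_zero_right] at h2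
    linarith
  -- auxiliary instance of the calculus rules
  have hconst : ContDiff ℝ ∞ (fun _ : ℝ => (0:ℝ)) := contDiff_const
  obtain ⟨hdb, hdd, -⟩ := hCALC b (fun _ => 0) k hconst hk
  obtain ⟨-, hdddb, -⟩ := hCALC b (fun _ => 0) (db k) hconst hdb
  obtain ⟨M1, hM1⟩ := Ad.bdd hk
  obtain ⟨M2, hM2⟩ := Ad.bdd hdd
  obtain ⟨M3, hM3⟩ := Ad.bdd hdb
  obtain ⟨M4, hM4⟩ := Ad.bdd hdddb
  obtain ⟨M, hM, m1, m2, m3, m4⟩ : ∃ M : ℝ, 1 ≤ M ∧ (∀ z, ‖k z‖ ≤ M) ∧ (∀ z, ‖dd k z‖ ≤ M) ∧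
      (∀ z, ‖db k z‖ ≤ M) ∧ ∀ z, ‖dd (db k) z‖ ≤ M := by
    refine ⟨max 1 (max M1 (max M2 (max M3 M4))), le_max_left _ _, ?_, ?_, ?_, ?_⟩
    · intro z; exact (hM1 z).trans (by simp)
    · intro z; exact (hM2 z).trans (by simp)
    · intro z; exact (hM3 z).trans (by simp)
    · intro z; exact (hM4 z).trans (by simp)
  -- the radius and the width
  obtain ⟨r, hr, hrM⟩ : ∃ r : ℝ, 0 < r ∧ M * (2 * r) = ε / 2 :=
    ⟨ε / (4 * M), by positivity, by field_simp; norm_num⟩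
  obtain ⟨s, hs, hsK⟩ : ∃ s : ℝ, 0 < s ∧
      s * (4 * M + 4 * M * (2 + 4 * R * R) + M * (4 * R / r)) = ε / 2 := by
    have hK : 0 < 4 * M + 4 * M * (2 + 4 * R * R) + M * (4 * R / r) := by positivity
    exact ⟨ε / 2 / (4 * M + 4 * M * (2 + 4 * R * R) + M * (4 * R / r)), by positivity,
      by field_simp⟩
  obtain ⟨h, hh, hh1, hh2, hh3, hh4⟩ := hCUT c s hs
  have hh' : ContDiff ℝ ∞ (deriv h) := (contDiff_infty_iff_deriv.1 hh).2
  set th : ℂ := (if b then I / 2 else 1 / 2 : ℂ) with hth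
  set th' : ℂ := (if b then -I / 2 else 1 / 2 : ℂ) with hth'
  have nth : ‖th‖ = 1 / 2 := th_norm b
  have nth' : ‖th'‖ = 1 / 2 := th'_norm b
  -- functions
  obtain ⟨-, -, hG, hdbG, hddG⟩ := hCALC b h k hh hk
  obtain ⟨-, -, hkH', -, -⟩ := hCALC b (deriv h) k hh' hk
  obtain ⟨-, -, hdH, -, hdddH⟩ := hCALC b h (db k) hh hdb
  obtain ⟨-, -, hdH', -, -⟩ := hCALC b (deriv h) (db k) hh' hdb
  obtain ⟨-, -, hddH, -, -⟩ := hCALC b h (dd (db k)) hh hdddb
  obtain ⟨-, hddkH', -⟩ := hCALC b (fun _ => 0) _ hconst hkH'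
  -- (1')
  have e1 : ∀ z, k z * ((h (co b z) : ℝ) : ℂ) =
      T (fun z => db k z * ((h (co b z) : ℝ) : ℂ)) z +
        th * T (fun z => k z * ((deriv h (co b z) : ℝ) : ℂ)) z := by
    intro z
    have h1 := ((hDER _ hG).2 z).1
    have h2 := hLIN (fun z => db k z * ((h (co b z) : ℝ) : ℂ))
      (fun z => k z * ((deriv h (co b z) : ℝ) : ℂ)) hdH.1.continuous hdH.2 hkH'.1.continuous
      hkH'.2 1 th z
    have h3 : (db fun z => k z * ((h (co b z) : ℝ) : ℂ)) =
        fun w => 1 * (db k w * ((h (co b w) : ℝ) : ℂ)) +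
          th * (k w * ((deriv h (co b w) : ℝ) : ℂ)) := by
      funext w
      rw [hdbG w]
      ring
    rw [← h1, h3, h2, one_mul]
  -- (2)
  have e2 : ∀ z, dd k z * ((h (co b z) : ℝ) : ℂ) +
        k z * ((deriv h (co b z) : ℝ) : ℂ) * th' =
      T (dd (fun z => db k z * ((h (co b z) : ℝ) : ℂ))) z +
        th * T (dd (fun z => k z * ((deriv h (co b z) : ℝ) : ℂ))) z := by
    intro z
    rw [← hddG z]
    have h1 : (fun z => k z * ((h (co b z) : ℝ) : ℂ)) =
      fun z => 1 * T (fun z => db k z * ((h (co b z) : ℝ) : ℂ)) z +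
        th * T (fun z => k z * ((deriv h (co b z) : ℝ) : ℂ)) z := by
      funext w
      rw [e1 w, one_mul]
    rw [h1, dd_lin (hDER _ hdH).1 (hDER _ hkH').1 1 th z, ((hDER _ hdH).2 z).2.2,
      ((hDER _ hkH').2 z).2.2, one_mul]
  have e3 : ∀ z, T (dd (fun z => db k z * ((h (co b z) : ℝ) : ℂ))) z =
      T (fun z => dd (db k) z * ((h (co b z) : ℝ) : ℂ)) z +
        th' * T (fun z => db k z * ((deriv h (co b z) : ℝ) : ℂ)) z := by
    intro z
    have h2 := hLIN (fun z => dd (db k) z * ((h (co b z) : ℝ) : ℂ))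
      (fun z => db k z * ((deriv h (co b z) : ℝ) : ℂ)) hddH.1.continuous hddH.2
      hdH'.1.continuous hdH'.2 1 th' z
    have h3 : (dd fun z => db k z * ((h (co b z) : ℝ) : ℂ)) =
        fun w => 1 * (dd (db k) w * ((h (co b w) : ℝ) : ℂ)) +
          th' * (db k w * ((deriv h (co b w) : ℝ) : ℂ)) := by
      funext w
      rw [hdddH w]
      ring
    rw [h3, h2, one_mul]
  -- norms of H, H'
  have nH : ∀ z, ‖((h (co b z) : ℝ) : ℂ)‖ ≤ 2 * s := by
    intro z
    rw [Complex.norm_real, Real.norm_eq_abs, abs_of_nonneg (hh1 _).1]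
    exact (hh1 _).2
  have nH' : ∀ z, ‖((deriv h (co b z) : ℝ) : ℂ)‖ = deriv h (co b z) := by
    intro z
    rw [Complex.norm_real, Real.norm_eq_abs, abs_of_nonneg (hh2 _).1]
  -- volume of the ball
  have hvol : volume (Metric.closedBall (0:ℂ) R) ≤ ENNReal.ofReal (4 * R * R) := by
    refine le_trans (measure_mono ?_) (hSTRIP b 0 R R hR0 hR0)
    intro w hw
    simp only [Metric.mem_closedBall, dist_zero_right] at hw
    refine ⟨?_, hw⟩
    rw [sub_zero]
    refine le_trans ?_ hw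
    unfold co
    cases b
    · simpa using Complex.abs_re_le_norm w
    · simpa using Complex.abs_im_le_norm w
  -- first bounds
  have hM0 : 0 ≤ M := by linarith
  have bT : ∀ g : ℂ → ℂ, Ad (fun z => g z * ((h (co b z) : ℝ) : ℂ)) → (∀ z, ‖g z‖ ≤ M) →
      (∀ w, R < ‖w‖ → g w = 0) → ∀ z,
      ‖T (fun z => g z * ((h (co b z) : ℝ) : ℂ)) z‖ ≤ 2 * s * M * (2 + 4 * R * R) := by
    intro g hg hgM hg0 z
    have := hBD (fun z => g z * ((h (co b z) : ℝ) : ℂ)) (2 * s * M) (4 * R * R) 1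
      (Metric.closedBall (0:ℂ) R) hg.1.continuous hg.2 measurableSet_closedBall
      (by positivity) (by positivity) one_pos
      (by
        intro w
        rw [norm_mul]
        calc ‖g w‖ * ‖((h (co b w) : ℝ) : ℂ)‖ ≤ M * (2 * s) :=
              mul_le_mul (hgM w) (nH w) (norm_nonneg _) hM0
          _ = 2 * s * M := by ring)
      (by
        intro w hw
        simp only [Metric.mem_closedBall, dist_zero_right, not_le] at hw
        rw [hg0 w hw, zero_mul]) hvol z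
    simpa using this
  have b1 := bT (db k) hdH m3 (fun w hw => db0 hk0 w hw)
  have b2 := bT (dd (db k)) hddH m4 (fun w hw => dd0 (fun v hv => db0 hk0 v hv) w hw)
  have b3 : ∀ z, ‖T (fun z => db k z * ((deriv h (co b z) : ℝ) : ℂ)) z‖ ≤
      M * (2 * r + 4 * s * R / r) := by
    intro z
    refine hBD (fun z => db k z * ((deriv h (co b z) : ℝ) : ℂ)) M (4 * s * R) r
      {w : ℂ | |co b w - c| ≤ s ∧ ‖w‖ ≤ R} hdH'.1.continuous hdH'.2 ?_ hM0 (by positivity) hr
      ?_ ?_ (hSTRIP b c s R hs.le hR0) z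
    · have hco : Continuous (co b) := by
        unfold co
        cases b
        · simpa using Complex.continuous_re
        · simpa using Complex.continuous_im
      have c1 : IsClosed {w : ℂ | |co b w - c| ≤ s} :=
        isClosed_le (continuous_abs.comp (hco.sub continuous_const)) continuous_const
      have c2 : IsClosed {w : ℂ | ‖w‖ ≤ R} := isClosed_le continuous_norm continuous_const
      exact (c1.inter c2).measurableSet
    · intro w
      rw [norm_mul, nH']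
      calc ‖db k w‖ * deriv h (co b w) ≤ M * 1 :=
            mul_le_mul (m3 w) (hh2 _).2 (hh2 _).1 hM0
        _ = M := mul_one _
    · intro w hw
      simp only [Set.mem_ofPred_eq, not_and_or, not_le] at hw
      rcases hw with hw | hw
      · rw [hh4 _ hw.le]
        simp
      · rw [db0 hk0 w hw, zero_mul]
  -- the function
  have hk' : Ad (fun z => 1 * k z + (-1) * (k z * ((deriv h (co b z) : ℝ) : ℂ))) := by
    refine ⟨?_, ?_⟩
    · exact (contDiff_const.mul hk.1).add (contDiff_const.mul hkH'.1)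
    · exact (hk.2.mul_left).add (hkH'.2.mul_left)
  refine ⟨fun z => 1 * k z + (-1) * (k z * ((deriv h (co b z) : ℝ) : ℂ)), hk', ?_, ?_, ?_, ?_⟩
  · intro z hz
    simp only
    rw [hz]
    ring
  · refine ⟨s / 2, by positivity, ?_⟩
    intro z hz
    simp only
    rw [hh3 _ hz.le]
    push_cast
    ring
  · intro z
    have h1 := hLIN k (fun z => k z * ((deriv h (co b z) : ℝ) : ℂ)) hk.1.continuous hk.2
      hkH'.1.continuous hkH'.2 1 (-1) z
    rw [h1]
    have h2 : 1 * T k z + -1 * T (fun z => k z * ((deriv h (co b z) : ℝ) : ℂ)) z - T k z =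
        - T (fun z => k z * ((deriv h (co b z) : ℝ) : ℂ)) z := by ring
    rw [h2, norm_neg]
    have h3 : ‖th * T (fun z => k z * ((deriv h (co b z) : ℝ) : ℂ)) z‖ ≤
        ‖k z * ((h (co b z) : ℝ) : ℂ)‖ + ‖T (fun z => db k z * ((h (co b z) : ℝ) : ℂ)) z‖ := by
      have h4 : th * T (fun z => k z * ((deriv h (co b z) : ℝ) : ℂ)) z =
        k z * ((h (co b z) : ℝ) : ℂ) - T (fun z => db k z * ((h (co b z) : ℝ) : ℂ)) z := by
        rw [e1 z]; ring
      rw [h4]
      exact norm_sub_le _ _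
    rw [norm_mul, nth, norm_mul] at h3
    have h5 : ‖k z‖ * ‖((h (co b z) : ℝ) : ℂ)‖ ≤ M * (2 * s) :=
      mul_le_mul (m1 z) (nH z) (norm_nonneg _) hM0
    have h6 := b1 z
    have h7 : 0 ≤ s * (M * (4 * R / r)) := by positivity
    nlinarith [h3, h5, h6, h7, hsK]
  · intro z
    have h1 : dd (fun z => 1 * k z + (-1) * (k z * ((deriv h (co b z) : ℝ) : ℂ))) =
        fun w => 1 * dd k w + (-1) * dd (fun z => k z * ((deriv h (co b z) : ℝ) : ℂ)) w := by
      funext w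
      exact dd_lin (Ad.diff hk) (Ad.diff hkH') 1 (-1) w
    have h2 := hLIN (dd k) (dd (fun z => k z * ((deriv h (co b z) : ℝ) : ℂ)))
      hdd.1.continuous hdd.2 hddkH'.1.continuous hddkH'.2 1 (-1) z
    rw [h1, h2]
    have h3 : ‖th * T (dd (fun z => k z * ((deriv h (co b z) : ℝ) : ℂ))) z‖ ≤
        ‖dd k z‖ * ‖((h (co b z) : ℝ) : ℂ)‖ + ‖k z‖ * deriv h (co b z) * (1 / 2) +
        (‖T (fun z => dd (db k) z * ((h (co b z) : ℝ) : ℂ)) z‖ +
        (1 / 2) * ‖T (fun z => db k z * ((deriv h (co b z) : ℝ) : ℂ)) z‖) := by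
      have h4 : th * T (dd (fun z => k z * ((deriv h (co b z) : ℝ) : ℂ))) z =
        (dd k z * ((h (co b z) : ℝ) : ℂ) + k z * ((deriv h (co b z) : ℝ) : ℂ) * th') -
        (T (fun z => dd (db k) z * ((h (co b z) : ℝ) : ℂ)) z +
        th' * T (fun z => db k z * ((deriv h (co b z) : ℝ) : ℂ)) z) := by
        rw [e2 z, e3 z]; ring
      rw [h4]
      refine (norm_sub_le _ _).trans (add_le_add ((norm_add_le _ _).trans ?_)
        ((norm_add_le _ _).trans ?_))
      · rw [norm_mul, norm_mul, norm_mul, nth', nH']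
      · rw [norm_mul, nth']
    rw [norm_mul, nth] at h3
    have h4 : ‖1 * T (dd k) z + -1 * T (dd (fun z => k z * ((deriv h (co b z) : ℝ) : ℂ))) z‖ ≤
        ‖T (dd k) z‖ + ‖T (dd (fun z => k z * ((deriv h (co b z) : ℝ) : ℂ))) z‖ := by
      refine (norm_add_le _ _).trans (le_of_eq ?_)
      simp
    have h5 : ‖1 * k z + -1 * (k z * ((deriv h (co b z) : ℝ) : ℂ))‖ =
        ‖k z‖ * (1 - deriv h (co b z)) := by
      have h6 : 1 * k z + -1 * (k z * ((deriv h (co b z) : ℝ) : ℂ)) =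
          k z * ((1 - deriv h (co b z) : ℝ) : ℂ) := by
        push_cast; ring
      rw [h6, norm_mul, Complex.norm_real, Real.norm_eq_abs,
        abs_of_nonneg (by linarith [(hh2 (co b z)).2])]
    have h7 : ‖dd k z‖ * ‖((h (co b z) : ℝ) : ℂ)‖ ≤ M * (2 * s) :=
      mul_le_mul (m2 z) (nH z) (norm_nonneg _) hM0
    have h8 := b2 z
    have h9 := b3 z
    have h10 := hB z
    have h11 : M * (2 * r + 4 * s * R / r) = ε / 2 + s * (M * (4 * R / r)) := by
      rw [← hrM]; field_simp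
    simp only at h5 ⊢
    rw [h5]
    rw [h11] at h9
    nlinarith [h3, h4, h7, h8, h9, h10, hsK]

end Pool.Agent.W95.US
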